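import Pool.Agent.Work.MP_207eeb_an.Fin1

/-!
# An explicit set of solutions of the free elastic flow with length `O(t^(1/4))`

Definitions: `Pool/Agent/Work/MP_207eeb_an/Defs.lean` (`Flow`, `len`, `ener`, `kap`, `rot`, `Symm`).
-/

namespace Pool.Agent.Results.MP_207eeb_an.ExplicitBasin

open Set Filter Topology Pool.Agent.Work.MP_207eeb_an

theorem result (γ : ℝ → ℝ → ℂ) (h : Flow γ) (n : ℕ) (hn : 1 ≤ n) (hs : Symm n γ) (t0 : ℝ)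
    (ht0 : 0 < t0) (hrot : rot (γ t0) ≠ 0)
    (hyp : ener (γ t0) * len (γ t0) < 2 * Real.pi ^ 2 * (rot (γ t0) ^ 2 + n * |rot (γ t0)|) ∨
      ener (γ t0) * len (γ t0) < 2 * Real.pi ^ 2 * rot (γ t0) ^ 2 + 12 * n ^ 2 ∨
      ∃ δ : ℝ, δ < 3 / 4 ∧ ∀ t, t0 ≤ t →
        (∀ x, -(δ * Real.sqrt (2 * ener (γ t) / len (γ t))) ≤ kap (γ t) x) ∨
          (∀ x, kap (γ t) x ≤ δ * Real.sqrt (2 * ener (γ t) / len (γ t)))) :
    AntitoneOn (fun t => ener (γ t) * len (γ t)) (Ici t0) ∧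
      Tendsto (fun t => ener (γ t) * len (γ t)) atTop (𝓝 (2 * Real.pi ^ 2 * rot (γ t0) ^ 2)) ∧
      ∀ ε : ℝ, 0 < ε → ∀ᶠ t in atTop,
        len (γ t) ≤ (2 ^ (5 / 4 : ℝ) * Real.pi * |rot (γ t0)| + ε) * t ^ (1 / 4 : ℝ) :=
  basin γ h n hn hs t0 ht0 hrot hyp

end Pool.Agent.Results.MP_207eeb_an.ExplicitBasin
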