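import Pool.Agent.Work.MP_207eeb_an.Fin2

/-!
# The length of every solution of the free elastic flow is `o(√t)`

Definitions: `Pool/Agent/Work/MP_207eeb_an/Defs.lean` (`Flow`, `len`).
-/

namespace Pool.Agent.Results.MP_207eeb_an.SquareRootBound

open Filter Topology Pool.Agent.Work.MP_207eeb_an

theorem result (γ : ℝ → ℝ → ℂ) (h : Flow γ) :
    Tendsto (fun t => len (γ t) / Real.sqrt t) atTop (𝓝 0) :=
  (criterion γ h).1

end Pool.Agent.Results.MP_207eeb_an.SquareRootBound
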