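import Pool.Agent.Work.MP_207eeb_an.Fin2

/-!
# Bounded total absolute curvature implies length `O(t^(1/4))`

Definitions: `Pool/Agent/Work/MP_207eeb_an/Defs.lean` (`Flow`, `len`, `tac`).
-/

namespace Pool.Agent.Results.MP_207eeb_an.TotalCurvature

open Set Filter Topology Pool.Agent.Work.MP_207eeb_an

theorem result (γ : ℝ → ℝ → ℂ) (h : Flow γ) (β η : ℝ) (hβ : 0 < β) (hβ1 : β ≤ 1) (hη : 0 < η)
    (hK : ∀ᶠ t in atTop, η * t ^ β ≤ ∫ s in (1 : ℝ)..t, (tac (γ s) ^ 6)⁻¹) :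
    ∃ C : ℝ, ∀ᶠ t in atTop, len (γ t) ≤ C * t ^ (1 / 2 - β / 4) :=
  (criterion γ h).2 β hβ hβ1 η hη hK

end Pool.Agent.Results.MP_207eeb_an.TotalCurvature
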